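import Pool.Agent.helper68.B2.Defs
import Pool.Agent.helper25.B2.TDefs

/-! # MP_b2b189_gt: the structure `FrameData` (module T6a, definition only) -/

set_option autoImplicit false

namespace Pool.Agent.helper68.B2

open scoped ContDiff Topology Matrix
open Matrix Set Filter

/-- smooth null frame adapted to the block -/
structure FrameData (S : Geo) (W : Set E4) (z n e : E4 → V3) (s a b l : E4 → ℝ) : Prop where
  cone : OCone W
  homz : Hom z
  homn : Hom n
  home : Hom e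
  smz : ContDiffOn ℝ ∞ z W
  smn : ContDiffOn ℝ ∞ n W
  sme : ContDiffOn ℝ ∞ e W
  homs : Hom s
  homa : Hom a
  homb : Hom b
  homl : Hom l
  sms : ContDiffOn ℝ ∞ s W
  sma : ContDiffOn ℝ ∞ a W
  smb : ContDiffOn ℝ ∞ b W
  sml : ContDiffOn ℝ ∞ l W
  frame : ∀ x ∈ W, NFrame (S.G x) (z x) (n x) (e x)
  Lz : ∀ x ∈ W, S.L x *ᵥ z x = s x • z x + b x • n x
  Ln : ∀ x ∈ W, S.L x *ᵥ n x = s x • n x + a x • z x
  Le : ∀ x ∈ W, S.L x *ᵥ e x = l x • e x
  P : ∀ x ∈ W, 0 < (l x - s x) ^ 2 - a x * b x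

end Pool.Agent.helper68.B2
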