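import Pool.Agent.helper93.B2.T3d
import Pool.Agent.helper93.B2.FD
import Pool.Agent.helper30.B2.LA1
import Pool.Agent.helper97.B2.T3a
import Pool.Agent.helper97.B2.T3b

/-! # MP_b2b189_gt, module T6a: existence of the block frame -/

set_option autoImplicit false

namespace Pool.Agent.helper68.B2

open scoped ContDiff Topology Matrix
open Matrix Set Filter

/-- the subcone where a homogeneous continuous function is positive -/
theorem T6a_sub {W : Set E4} (hW : OCone W) {F : E4 → ℝ} (hF : Hom F)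
    (hc : ∀ x ∈ W, ContinuousAt F x) : OCone {x | x ∈ W ∧ 0 < F x} where
  isOpen := by
    rw [isOpen_iff_mem_nhds]
    rintro x ⟨hx, hx'⟩
    filter_upwards [hW.isOpen.mem_nhds hx, (hc x hx).eventually (lt_mem_nhds hx')] with y h1 h2
    exact ⟨h1, h2⟩
  zero := fun h => hW.zero h.1
  smul := fun x hx t ht => ⟨hW.smul x hx.1 t ht, by rw [hF t ht x]; exact hx.2⟩

theorem T6a_nrm {F : E4 → ℝ} {V : E4 → V3} {x : E4} (hF : ContDiffAt ℝ ∞ F x)
    (hV : ContDiffAt ℝ ∞ V x) (h : 0 < F x) :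
    ContDiffAt ℝ ∞ (fun y => (Real.sqrt (F y))⁻¹ • V y) x :=
  ((hF.sqrt h.ne').inv (Real.sqrt_pos.2 h).ne').smul hV

theorem T6a_nrm_hom {F : E4 → ℝ} {V : E4 → V3} (hF : Hom F) (hV : Hom V) :
    Hom (fun y => (Real.sqrt (F y))⁻¹ • V y) := by
  intro t ht x
  simp only
  rw [hF t ht x, hV t ht x]

theorem T6a_g_hom (S : Geo) {V W : E4 → V3} (hV : Hom V) (hW : Hom W) :
    Hom (fun y => S.g y (V y) (W y)) := by
  intro t ht x
  simp only
  unfold Geo.g
  rw [S.homG t ht x, hV t ht x, hW t ht x]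

theorem T6a_g_smooth (S : Geo) {V W : E4 → V3} {x : E4} (hx : x ≠ 0) (hV : ContDiffAt ℝ ∞ V x)
    (hW : ContDiffAt ℝ ∞ W x) : ContDiffAt ℝ ∞ (fun y => S.g y (V y) (W y)) x :=
  contDiffAt_bil (S.smG.contDiffAt hx) hV hW

theorem T6a_inv_sqrt {a : ℝ} (ha : 0 < a) : (Real.sqrt a)⁻¹ * ((Real.sqrt a)⁻¹ * a) = 1 := by
  have h := Real.mul_self_sqrt ha.le
  have h1 := (Real.sqrt_pos.2 ha).ne'
  field_simp
  nlinarith

/-- T6a: existence of the frame -/
theorem T6_frame (S : Geo) {q : E4} (hq : q ≠ 0) {l₀ : ℝ} {e₀ : V3} (he₀ : S.L q *ᵥ e₀ = l₀ • e₀)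
    (hee : S.g q e₀ e₀ = 1) (hsimple : 0 < (S.L q - l₀ • (1 : M3)).adjugate.trace) :
    ∃ (W : Set E4) (z n e : E4 → V3) (s a b l : E4 → ℝ), q ∈ W ∧ l q = l₀ ∧
      FrameData S W z n e s a b l := by
  have he₀0 : e₀ ≠ 0 := by
    rintro rfl
    rw [TB_zero_l] at hee
    norm_num at hee
  have hroot : (S.L q - l₀ • (1 : M3)).det = 0 := by
    rw [← Matrix.exists_mulVec_eq_zero_iff]
    exact ⟨e₀, he₀0, by rw [T3d_L, he₀, sub_self]⟩
  obtain ⟨W1, μ, hW1, hq1, hμh, hμq, hμs, hμr⟩ := T3_exists S hq hroot hsimple.ne'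
  obtain ⟨W2, σ, T, hsub, hq2, hR⟩ := T3_root_exists S hW1 hμh hμs (fun x hx => (hμr x hx).1)
    (fun x hx => (hμr x hx).2) hq1
  have hW2 := hR.cone
  -- the first function
  set F1 : E4 → ℝ := fun x => S.g x (T x) (T x) with hF1
  have hF1q : 0 < F1 q := by
    have hT := (T3_eig S hR hq2 0).1
    have hTT := (T3_eig S hR hq2 0).2.2.1
    set c := S.g q (T q) e₀ / S.g q (T q) (T q) with hc
    have h1 : e₀ - c • T q = 0 := by
      apply T3d_ker S hR hq2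
      · rw [mulVec_sub, mulVec_smul, hT, he₀, hμq, smul_sub, smul_comm]
      · rw [TB_sub_r, TB_smul_r, hc]
        field_simp
        ring
    have h2 : e₀ = c • T q := sub_eq_zero.1 h1
    rw [h2, TB_smul_l, TB_smul_r] at hee
    by_contra hcon
    push Not at hcon
    have h3 : S.g q (T q) (T q) ≤ 0 := hcon
    nlinarith [sq_nonneg c]
  have hF1h : Hom F1 := T6a_g_hom S hR.homT hR.homT
  have sT : ∀ x ∈ W2, ContDiffAt ℝ ∞ T x := fun x hx =>
    hR.smT.contDiffAt (hW2.isOpen.mem_nhds hx)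
  have sF1 : ∀ x ∈ W2, ContDiffAt ℝ ∞ F1 x := fun x hx =>
    T6a_g_smooth S (TB_ne hW2 hx) (sT x hx) (sT x hx)
  obtain ⟨e, he⟩ : ∃ e : E4 → V3, e = fun x => (Real.sqrt (F1 x))⁻¹ • T x := ⟨_, rfl⟩
  have hW3 := T6a_sub hW2 hF1h fun x hx => (sF1 x hx).continuousAt
  set W3 : Set E4 := {x | x ∈ W2 ∧ 0 < F1 x} with hW3d
  have heh : Hom e := by rw [he]; exact T6a_nrm_hom hF1h hR.homT
  have se : ∀ x ∈ W3, ContDiffAt ℝ ∞ e x := fun x hx => by
    rw [he]; exact T6a_nrm (sF1 x hx.1) (sT x hx.1) hx.2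
  have gee : ∀ x ∈ W3, S.g x (e x) (e x) = 1 := by
    intro x hx
    simp only [he]
    rw [TB_smul_l, TB_smul_r]
    exact T6a_inv_sqrt hx.2
  have hq3 : q ∈ W3 := ⟨hq2, hF1q⟩
  have hLor : Lor (S.G q) := ⟨S.symm q hq, S.det_neg q hq, S.pos q hq⟩
  obtain ⟨z0, n0, hfr⟩ := LA_frame_e hLor (e := e q) (gee q hq3)
  have Fq := TB_fr S hq hfr
  -- the timelike vector
  obtain ⟨t1, ht1⟩ : ∃ t1 : E4 → V3, t1 = fun x => (z0 - n0) - S.g x (z0 - n0) (e x) • e x :=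
    ⟨_, rfl⟩
  have ht1h : Hom t1 := by
    intro r hr x
    simp only [ht1]
    unfold Geo.g
    rw [S.homG r hr x, heh r hr x]
  have st1 : ∀ x ∈ W3, ContDiffAt ℝ ∞ t1 x := fun x hx => by
    rw [ht1]
    exact contDiffAt_const.sub ((T6a_g_smooth S (TB_ne hW3 hx) contDiffAt_const (se x hx)).smul (se x hx))
  set F2 : E4 → ℝ := fun x => -S.g x (t1 x) (t1 x) with hF2
  have hF2h : Hom F2 := by
    intro r hr x
    have h1 := T6a_g_hom S ht1h ht1h r hr x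
    simp only at h1
    simp only [hF2]
    rw [h1]
  have sF2 : ∀ x ∈ W3, ContDiffAt ℝ ∞ F2 x := fun x hx =>
    (T6a_g_smooth S (TB_ne hW3 hx) (st1 x hx) (st1 x hx)).neg
  obtain ⟨t, ht⟩ : ∃ t : E4 → V3, t = fun x => (Real.sqrt (F2 x))⁻¹ • t1 x := ⟨_, rfl⟩
  have hth : Hom t := by rw [ht]; exact T6a_nrm_hom hF2h ht1h
  have hW4 := T6a_sub hW3 hF2h fun x hx => (sF2 x hx).continuousAt
  set W4 : Set E4 := {x | x ∈ W3 ∧ 0 < F2 x} with hW4d
  have stt : ∀ x ∈ W4, ContDiffAt ℝ ∞ t x := fun x hx => by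
    rw [ht]; exact T6a_nrm (sF2 x hx.1) (st1 x hx.1) hx.2
  have gt1e : ∀ x ∈ W3, S.g x (t1 x) (e x) = 0 := by
    intro x hx
    simp only [ht1]
    rw [TB_sub_l, TB_smul_l, gee x hx]
    ring
  have gte : ∀ x ∈ W4, S.g x (t x) (e x) = 0 := by
    intro x hx
    simp only [ht]
    rw [TB_smul_l, gt1e x hx.1, mul_zero]
  have gtt : ∀ x ∈ W4, S.g x (t x) (t x) = -1 := by
    intro x hx
    have h1 := T6a_inv_sqrt hx.2
    simp only [ht]
    rw [TB_smul_l, TB_smul_r]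
    have h2 : S.g x (t1 x) (t1 x) = -F2 x := by simp only [hF2]; ring
    rw [h2]
    linarith
  have ht1q : t1 q = z0 - n0 := by
    simp only [ht1]
    rw [TB_sub_l, Fq.ze, Fq.ne, sub_self, zero_smul, sub_zero]
  have hF2q : F2 q = 2 := by
    simp only [hF2]
    rw [ht1q, TB_sub_l, TB_sub_r, TB_sub_r, Fq.zz, Fq.zn, Fq.nz, Fq.nn]
    ring
  have hq4 : q ∈ W4 := ⟨hq3, by rw [hF2q]; norm_num⟩
  -- the spacelike vector
  obtain ⟨y1, hy1⟩ : ∃ y1 : E4 → V3, y1 = fun x => (z0 + n0) - S.g x (z0 + n0) (e x) • e x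
    + S.g x (z0 + n0) (t x) • t x := ⟨_, rfl⟩
  have hy1h : Hom y1 := by
    intro r hr x
    simp only [hy1]
    unfold Geo.g
    rw [S.homG r hr x, heh r hr x, hth r hr x]
  have sy1 : ∀ x ∈ W4, ContDiffAt ℝ ∞ y1 x := fun x hx => by
    rw [hy1]
    exact (contDiffAt_const.sub ((T6a_g_smooth S (TB_ne hW4 hx) contDiffAt_const
      (se x hx.1)).smul (se x hx.1))).add
      ((T6a_g_smooth S (TB_ne hW4 hx) contDiffAt_const (stt x hx)).smul (stt x hx))
  set F3 : E4 → ℝ := fun x => S.g x (y1 x) (y1 x) with hF3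
  have hF3h : Hom F3 := T6a_g_hom S hy1h hy1h
  have sF3 : ∀ x ∈ W4, ContDiffAt ℝ ∞ F3 x := fun x hx =>
    T6a_g_smooth S (TB_ne hW4 hx) (sy1 x hx) (sy1 x hx)
  obtain ⟨y, hy⟩ : ∃ y : E4 → V3, y = fun x => (Real.sqrt (F3 x))⁻¹ • y1 x := ⟨_, rfl⟩
  have hyh : Hom y := by rw [hy]; exact T6a_nrm_hom hF3h hy1h
  have hW5 := T6a_sub hW4 hF3h fun x hx => (sF3 x hx).continuousAt
  set W5 : Set E4 := {x | x ∈ W4 ∧ 0 < F3 x} with hW5d
  have syy : ∀ x ∈ W5, ContDiffAt ℝ ∞ y x := fun x hx => by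
    rw [hy]; exact T6a_nrm (sF3 x hx.1) (sy1 x hx.1) hx.2
  have gy1e : ∀ x ∈ W4, S.g x (y1 x) (e x) = 0 := by
    intro x hx
    simp only [hy1]
    rw [TB_add_l, TB_sub_l, TB_smul_l, TB_smul_l, gee x hx.1, gte x hx]
    ring
  have get : ∀ x ∈ W4, S.g x (e x) (t x) = 0 := by
    intro x hx
    rw [TB_sym S (TB_ne hW4 hx), gte x hx]
  have gy1t : ∀ x ∈ W4, S.g x (y1 x) (t x) = 0 := by
    intro x hx
    simp only [hy1]
    rw [TB_add_l, TB_sub_l, TB_smul_l, TB_smul_l, get x hx, gtt x hx]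
    ring
  have gye : ∀ x ∈ W5, S.g x (y x) (e x) = 0 := by
    intro x hx
    simp only [hy]
    rw [TB_smul_l, gy1e x hx.1, mul_zero]
  have gyt : ∀ x ∈ W5, S.g x (y x) (t x) = 0 := by
    intro x hx
    simp only [hy]
    rw [TB_smul_l, gy1t x hx.1, mul_zero]
  have gyy : ∀ x ∈ W5, S.g x (y x) (y x) = 1 := by
    intro x hx
    simp only [hy]
    rw [TB_smul_l, TB_smul_r]
    exact T6a_inv_sqrt hx.2
  have htq : t q = (Real.sqrt 2)⁻¹ • (z0 - n0) := by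
    simp only [ht]
    rw [hF2q, ht1q]
  have hy1q : y1 q = z0 + n0 := by
    simp only [hy1]
    rw [htq, TB_smul_r, TB_sub_r, TB_add_l, TB_add_l, TB_add_l, Fq.ze, Fq.ne, Fq.zz, Fq.nz,
      Fq.zn, Fq.nn]
    simp
  have hF3q : F3 q = 2 := by
    simp only [hF3]
    rw [hy1q, TB_add_l, TB_add_r, TB_add_r, Fq.zz, Fq.zn, Fq.nz, Fq.nn]
    ring
  have hq5 : q ∈ W5 := ⟨hq4, by rw [hF3q]; norm_num⟩
  -- the last condition
  set F4 : E4 → ℝ := fun x => (S.L x - μ x • (1 : M3)).adjugate.trace with hF4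
  have hF4h : Hom F4 := by
    intro r hr x
    simp only [hF4]
    rw [S.homL r hr x, hμh r hr x]
  have sμ : ∀ x ∈ W2, ContDiffAt ℝ ∞ μ x := fun x hx =>
    hR.smμ.contDiffAt (hW2.isOpen.mem_nhds hx)
  have sF4 : ∀ x ∈ W5, ContDiffAt ℝ ∞ F4 x := fun x hx =>
    contDiffAt_trace (contDiffAt_adjugate ((S.smL.contDiffAt (TB_ne hW5 hx)).sub
      ((sμ x hx.1.1.1).smul contDiffAt_const)))
  have hW6 := T6a_sub hW5 hF4h fun x hx => (sF4 x hx).continuousAt
  set W6 : Set E4 := {x | x ∈ W5 ∧ 0 < F4 x} with hW6d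
  have hq6 : q ∈ W6 := ⟨hq5, by simp only [hF4]; rw [hμq]; exact hsimple⟩
  -- the null frame
  obtain ⟨z, hz⟩ : ∃ z : E4 → V3, z = fun x => (Real.sqrt 2)⁻¹ • (y x + t x) := ⟨_, rfl⟩
  obtain ⟨n, hn⟩ : ∃ n : E4 → V3, n = fun x => (Real.sqrt 2)⁻¹ • (y x - t x) := ⟨_, rfl⟩
  have hzh : Hom z := by
    intro r hr x
    simp only [hz]
    rw [hyh r hr x, hth r hr x]
  have hnh : Hom n := by
    intro r hr x
    simp only [hn]
    rw [hyh r hr x, hth r hr x]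
  have szz : ∀ x ∈ W6, ContDiffAt ℝ ∞ z x := fun x hx => by
    rw [hz]; exact ((syy x hx.1).add (stt x hx.1.1)).const_smul _
  have snn : ∀ x ∈ W6, ContDiffAt ℝ ∞ n x := fun x hx => by
    rw [hn]; exact ((syy x hx.1).sub (stt x hx.1.1)).const_smul _
  have see : ∀ x ∈ W6, ContDiffAt ℝ ∞ e x := fun x hx => se x hx.1.1.1
  have h22 : (Real.sqrt 2)⁻¹ * ((Real.sqrt 2)⁻¹ * 2) = 1 := T6a_inv_sqrt (by norm_num)
  have hframe : ∀ x ∈ W6, NFrame (S.G x) (z x) (n x) (e x) := by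
    intro x hx
    have hx0 := TB_ne hW6 hx
    have h1 := gyy x hx.1
    have h2 := gyt x hx.1
    have h3 := gtt x hx.1.1
    have h4 := gye x hx.1
    have h5 := gte x hx.1.1
    have h2' : S.g x (t x) (y x) = 0 := by rw [TB_sym S hx0]; exact h2
    refine ⟨?_, ?_, ?_, gee x hx.1.1.1, ?_, ?_⟩
    · change S.g x (z x) (z x) = 0
      simp only [hz]
      rw [TB_smul_l, TB_smul_r, TB_add_l, TB_add_r, TB_add_r, h1, h2, h3, h2']
      ring
    · change S.g x (n x) (n x) = 0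
      simp only [hn]
      rw [TB_smul_l, TB_smul_r, TB_sub_l, TB_sub_r, TB_sub_r, h1, h2, h3, h2']
      ring
    · change S.g x (z x) (n x) = 1
      simp only [hz, hn]
      rw [TB_smul_l, TB_smul_r, TB_add_l, TB_sub_r, TB_sub_r, h1, h2, h3, h2']
      linear_combination h22
    · change S.g x (z x) (e x) = 0
      simp only [hz]
      rw [TB_smul_l, TB_add_l, h4, h5]
      ring
    · change S.g x (n x) (e x) = 0
      simp only [hn]
      rw [TB_smul_l, TB_sub_l, h4, h5]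
      ring
  have hLe : ∀ x ∈ W6, S.L x *ᵥ e x = μ x • e x := by
    intro x hx
    simp only [he]
    rw [mulVec_smul, (T3_eig S hR hx.1.1.1.1 0).1, smul_comm]
  have hLVh : ∀ {V : E4 → V3}, Hom V → Hom (fun x => S.L x *ᵥ V x) := by
    intro V hV r hr x
    simp only
    rw [S.homL r hr x, hV r hr x]
  have hLVs : ∀ {V : E4 → V3} {x : E4}, x ∈ W6 → ContDiffAt ℝ ∞ V x →
      ContDiffAt ℝ ∞ (fun x => S.L x *ᵥ V x) x := fun hx hV =>
    contDiffAt_mulVec (S.smL.contDiffAt (TB_ne hW6 hx)) hV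
  have hLz : ∀ x ∈ W6, S.L x *ᵥ z x
      = S.g x (S.L x *ᵥ z x) (n x) • z x + S.g x (S.L x *ᵥ z x) (z x) • n x := by
    intro x hx
    have hx0 := TB_ne hW6 hx
    have h1 := TB_expand S hx0 (hframe x hx) (S.L x *ᵥ z x)
    have h2 : S.g x (S.L x *ᵥ z x) (e x) = 0 := by
      rw [S.g_L hx0, hLe x hx, TB_smul_r, (TB_fr S hx0 (hframe x hx)).ze, mul_zero]
    rw [h2, zero_smul, add_zero] at h1
    exact h1
  have hLn : ∀ x ∈ W6, S.L x *ᵥ n x
      = S.g x (S.L x *ᵥ z x) (n x) • n x + S.g x (S.L x *ᵥ n x) (n x) • z x := by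
    intro x hx
    have hx0 := TB_ne hW6 hx
    have h1 := TB_expand S hx0 (hframe x hx) (S.L x *ᵥ n x)
    have h2 : S.g x (S.L x *ᵥ n x) (e x) = 0 := by
      rw [S.g_L hx0, hLe x hx, TB_smul_r, (TB_fr S hx0 (hframe x hx)).ne, mul_zero]
    have h3 : S.g x (S.L x *ᵥ n x) (z x) = S.g x (S.L x *ᵥ z x) (n x) := by
      rw [S.g_L hx0, TB_sym S hx0]
    rw [h2, zero_smul, add_zero, h3, add_comm] at h1
    exact h1
  refine ⟨W6, z, n, e, fun x => S.g x (S.L x *ᵥ z x) (n x), fun x => S.g x (S.L x *ᵥ n x) (n x),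
    fun x => S.g x (S.L x *ᵥ z x) (z x), μ, hq6, hμq, ?_⟩
  refine
    { cone := hW6
      homz := hzh
      homn := hnh
      home := heh
      smz := fun x hx => (szz x hx).contDiffWithinAt
      smn := fun x hx => (snn x hx).contDiffWithinAt
      sme := fun x hx => (see x hx).contDiffWithinAt
      homs := T6a_g_hom S (hLVh hzh) hnh
      homa := T6a_g_hom S (hLVh hnh) hnh
      homb := T6a_g_hom S (hLVh hzh) hzh
      homl := hμh
      sms := fun x hx => (T6a_g_smooth S (TB_ne hW6 hx) (hLVs hx (szz x hx))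
        (snn x hx)).contDiffWithinAt
      sma := fun x hx => (T6a_g_smooth S (TB_ne hW6 hx) (hLVs hx (snn x hx))
        (snn x hx)).contDiffWithinAt
      smb := fun x hx => (T6a_g_smooth S (TB_ne hW6 hx) (hLVs hx (szz x hx))
        (szz x hx)).contDiffWithinAt
      sml := fun x hx => (sμ x hx.1.1.1.1).contDiffWithinAt
      frame := hframe
      Lz := hLz
      Ln := hLn
      Le := hLe
      P := ?_ }
  intro x hx
  have hx0 := TB_ne hW6 hx
  have hP : 0 < F4 x := hx.2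
  have Fx := TB_fr S hx0 (hframe x hx)
  set s := S.g x (S.L x *ᵥ z x) (n x) with hs
  set a := S.g x (S.L x *ᵥ n x) (n x) with ha
  set b := S.g x (S.L x *ᵥ z x) (z x) with hb
  set A : M3 := S.L x - μ x • (1 : M3) with hA
  have Az : A *ᵥ z x = (s - μ x) • z x + b • n x := by
    rw [hA, T3d_L, hLz x hx, sub_smul]
    abel
  have An : A *ᵥ n x = (s - μ x) • n x + a • z x := by
    rw [hA, T3d_L, hLn x hx, sub_smul]
    abel
  have Ae : A *ᵥ e x = 0 := by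
    rw [hA, T3d_L, hLe x hx, sub_self]
  have tr1 : A.trace = 2 * (s - μ x) := by
    rw [TB_trace S hx0 (hframe x hx) A, Az, An, Ae, TB_add_l, TB_add_l, TB_smul_l, TB_smul_l,
      TB_smul_l, TB_smul_l, Fx.zn, Fx.nn, Fx.nz, Fx.zz, TB_zero_l]
    ring
  have tr2 : (A * A).trace = 2 * ((s - μ x) ^ 2 + a * b) := by
    rw [TB_trace S hx0 (hframe x hx) (A * A), ← mulVec_mulVec, ← mulVec_mulVec, ← mulVec_mulVec,
      Ae, mulVec_zero, Az, An, mulVec_add, mulVec_add, mulVec_smul, mulVec_smul, mulVec_smul,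
      mulVec_smul, Az, An]
    simp only [TB_add_l, TB_smul_l, Fx.zn, Fx.nn, Fx.nz, Fx.zz, TB_zero_l]
    ring
  have h2 : A.adjugate.trace = (A.trace ^ 2 - (A * A).trace) / 2 := by
    rw [B0b_adjugate]
    unfold crossM
    simp only [trace_smul, trace_add, trace_sub, trace_one, Fintype.card_fin, smul_eq_mul]
    push_cast
    ring
  have h3 : F4 x = (μ x - s) ^ 2 - a * b := by
    change A.adjugate.trace = _
    rw [h2, tr1, tr2]
    ring
  rw [h3] at hP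
  exact hP

end Pool.Agent.helper68.B2
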