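import Pool.Agent.helper93.B2.TB

/-! # MP_b2b189_gt, module T6b: connection coefficients of the block frame -/

set_option autoImplicit false

namespace Pool.Agent.helper68.B2

open scoped ContDiff Topology Matrix
open Matrix Set Filter

/-- T6b: connection coefficients and first derivatives -/
theorem T6_conn (S : Geo) {W : Set E4} {z n e : E4 → V3} {s a b l : E4 → ℝ}
    (h : FrameData S W z n e s a b l) {x : E4} (hx : x ∈ W) (v : V3) :
    ∃ ηp ηm : ℝ,
      ηp = -(((l x - s x) * (S.g x (S.lam x) (e x) * S.g x (z x) v + S.g x (S.lam x) (z x) * S.g x (e x) v)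
        + b x * (S.g x (S.lam x) (e x) * S.g x (n x) v + S.g x (S.lam x) (n x) * S.g x (e x) v))
          / ((l x - s x) ^ 2 - a x * b x)) ∧
      ηm = -(((l x - s x) * (S.g x (S.lam x) (e x) * S.g x (n x) v + S.g x (S.lam x) (n x) * S.g x (e x) v)
        + a x * (S.g x (S.lam x) (e x) * S.g x (z x) v + S.g x (S.lam x) (z x) * S.g x (e x) v))
          / ((l x - s x) ^ 2 - a x * b x)) ∧
      S.nab z v x = S.g x (S.nab z v x) (n x) • z x + ηp • e x ∧
      S.nab n v x = -(S.g x (S.nab z v x) (n x)) • n x + ηm • e x ∧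
      S.nab e v x = -ηm • z x - ηp • n x ∧
      Dv s v x = S.g x (S.lam x) (n x) * S.g x (z x) v + S.g x (S.lam x) (z x) * S.g x (n x) v ∧
      Dv a v x = -2 * a x * S.g x (S.nab z v x) (n x) + 2 * S.g x (S.lam x) (n x) * S.g x (n x) v ∧
      Dv b v x = 2 * b x * S.g x (S.nab z v x) (n x) + 2 * S.g x (S.lam x) (z x) * S.g x (z x) v ∧
      Dv l v x = 2 * S.g x (S.lam x) (e x) * S.g x (e x) v := by
  have hx0 : x ≠ 0 := TB_ne h.cone hx
  have hU := h.cone.isOpen
  have dz := TB_diff h.cone h.smz hx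
  have dn := TB_diff h.cone h.smn hx
  have de := TB_diff h.cone h.sme hx
  have ds := TB_diff h.cone h.sms hx
  have da := TB_diff h.cone h.sma hx
  have db := TB_diff h.cone h.smb hx
  have dl := TB_diff h.cone h.sml hx
  have F := TB_fr S hx0 (h.frame x hx)
  have sy := TB_sym S hx0
  -- derivatives of the frame relations
  have c1 := TB_g_const S hU hx hx0 dz dz (fun y hy => (h.frame y hy).zz) v
  have c2 := TB_g_const S hU hx hx0 dn dn (fun y hy => (h.frame y hy).nn) v
  have c3 := TB_g_const S hU hx hx0 dz dn (fun y hy => (h.frame y hy).zn) v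
  have c4 := TB_g_const S hU hx hx0 de de (fun y hy => (h.frame y hy).ee) v
  have c5 := TB_g_const S hU hx hx0 dz de (fun y hy => (h.frame y hy).ze) v
  have c6 := TB_g_const S hU hx hx0 dn de (fun y hy => (h.frame y hy).ne) v
  -- derivatives of the eigenvector relations
  have e1 : S.L x *ᵥ S.nab z v x + (S.g x (S.lam x) (z x) • v + S.g x v (z x) • S.lam x)
      = Dv s v x • z x + s x • S.nab z v x + (Dv b v x • n x + b x • S.nab n v x) := by
    rw [← TB_nab_L S hx0 dz v, TB_nab_congr S hU hx h.Lz v,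
      TB_nab_add S (V := fun y => s y • z y) (W := fun y => b y • n y) (ds.smul dz) (db.smul dn) v,
      TB_nab_smul S ds dz, TB_nab_smul S db dn]
  have e2 : S.L x *ᵥ S.nab n v x + (S.g x (S.lam x) (n x) • v + S.g x v (n x) • S.lam x)
      = Dv s v x • n x + s x • S.nab n v x + (Dv a v x • z x + a x • S.nab z v x) := by
    rw [← TB_nab_L S hx0 dn v, TB_nab_congr S hU hx h.Ln v,
      TB_nab_add S (V := fun y => s y • n y) (W := fun y => a y • z y) (ds.smul dn) (da.smul dz) v,
      TB_nab_smul S ds dn, TB_nab_smul S da dz]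
  have e3 : S.L x *ᵥ S.nab e v x + (S.g x (S.lam x) (e x) • v + S.g x v (e x) • S.lam x)
      = Dv l v x • e x + l x • S.nab e v x := by
    rw [← TB_nab_L S hx0 de v, TB_nab_congr S hU hx h.Le v, TB_nab_smul S dl de]
  have P := h.P x hx
  have Lz := h.Lz x hx
  have Ln := h.Ln x hx
  have Le := h.Le x hx
  set Z := z x
  set N := n x
  set E := e x
  set Zv := S.nab z v x
  set Nv := S.nab n v x
  set Ev := S.nab e v x
  -- pairings with L
  have LZz : S.g x (S.L x *ᵥ Zv) Z = s x * S.g x Zv Z + b x * S.g x Zv N := by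
    rw [S.g_L hx0, Lz, TB_add_r, TB_smul_r, TB_smul_r]
  have LZn : S.g x (S.L x *ᵥ Zv) N = s x * S.g x Zv N + a x * S.g x Zv Z := by
    rw [S.g_L hx0, Ln, TB_add_r, TB_smul_r, TB_smul_r]
  have LZe : S.g x (S.L x *ᵥ Zv) E = l x * S.g x Zv E := by
    rw [S.g_L hx0, Le, TB_smul_r]
  have LNn : S.g x (S.L x *ᵥ Nv) N = s x * S.g x Nv N + a x * S.g x Nv Z := by
    rw [S.g_L hx0, Ln, TB_add_r, TB_smul_r, TB_smul_r]
  have LNe : S.g x (S.L x *ᵥ Nv) E = l x * S.g x Nv E := by
    rw [S.g_L hx0, Le, TB_smul_r]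
  have LEe : S.g x (S.L x *ᵥ Ev) E = l x * S.g x Ev E := by
    rw [S.g_L hx0, Le, TB_smul_r]
  have c1' : S.g x Zv Z = 0 := by rw [sy Z Zv] at c1; linarith
  have c2' : S.g x Nv N = 0 := by rw [sy N Nv] at c2; linarith
  have c3' : S.g x Nv Z = -S.g x Zv N := by rw [sy Z Nv] at c3; linarith
  have c4' : S.g x Ev E = 0 := by rw [sy E Ev] at c4; linarith
  have c5' : S.g x Ev Z = -S.g x Zv E := by rw [sy Z Ev] at c5; linarith
  have c6' : S.g x Ev N = -S.g x Nv E := by rw [sy N Ev] at c6; linarith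
  -- paired relations
  have p1z := congrArg (fun w => S.g x w Z) e1
  have p1n := congrArg (fun w => S.g x w N) e1
  have p1e := congrArg (fun w => S.g x w E) e1
  have p2n := congrArg (fun w => S.g x w N) e2
  have p2e := congrArg (fun w => S.g x w E) e2
  have p3e := congrArg (fun w => S.g x w E) e3
  simp only [TB_add_l, TB_smul_l, LZz, LZn, LZe, LNn, LNe, LEe, c1', c2', c3', c4', F.zz, F.nn,
    F.zn, F.nz, F.ee, F.ze, F.ne, sy v] at p1z p1n p1e p2n p2e p3e
  refine ⟨S.g x Zv E, S.g x Nv E, ?_, ?_, ?_, ?_, ?_, ?_, ?_, ?_, ?_⟩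
  · rw [eq_neg_iff_add_eq_zero, ← sub_neg_eq_add, sub_eq_zero, ← neg_div, eq_div_iff P.ne']
    linear_combination (l x - s x) * p1e + b x * p2e
  · rw [eq_neg_iff_add_eq_zero, ← sub_neg_eq_add, sub_eq_zero, ← neg_div, eq_div_iff P.ne']
    linear_combination (l x - s x) * p2e + a x * p1e
  · have := TB_expand S hx0 (h.frame x hx) Zv
    rw [c1', zero_smul, add_zero] at this
    exact this
  · have := TB_expand S hx0 (h.frame x hx) Nv
    rw [c2', c3', zero_smul, zero_add] at this
    exact this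
  · have := TB_expand S hx0 (h.frame x hx) Ev
    rw [c6', c5', c4', zero_smul, add_zero] at this
    rw [sub_eq_add_neg, ← neg_smul]
    exact this
  · linarith
  · linarith
  · linarith
  · linarith

end Pool.Agent.helper68.B2
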