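import Pool.Agent.helper93.B2.T6b

/-! # MP_b2b189_gt, module T6c: the function `h` of the block -/

set_option autoImplicit false

namespace Pool.Agent.helper68.B2

open scoped ContDiff Topology Matrix
open Matrix Set Filter

/-- T6c: the function `h` -/
theorem T6_h (S : Geo) {W : Set E4} {z n e : E4 → V3} {s a b l : E4 → ℝ}
    (h : FrameData S W z n e s a b l) {x : E4} (hx : x ∈ W) :
    Dv (fun y => S.g y (S.lam y) (n y)) (z x) x =
      (((S.Lam x).trace - S.g x (S.Lam x *ᵥ e x) (e x)) / 2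
        - S.g x (S.lam x) (e x) ^ 2 * (l x - s x) / ((l x - s x) ^ 2 - a x * b x))
        - S.g x (S.nab z (z x) x) (n x) * S.g x (S.lam x) (n x) ∧
    Dv (fun y => S.g y (S.lam y) (z y)) (n x) x =
      (((S.Lam x).trace - S.g x (S.Lam x *ᵥ e x) (e x)) / 2
        - S.g x (S.lam x) (e x) ^ 2 * (l x - s x) / ((l x - s x) ^ 2 - a x * b x))
        + S.g x (S.nab z (n x) x) (n x) * S.g x (S.lam x) (z x) := by
  have hx0 : x ≠ 0 := TB_ne h.cone hx
  have dz := TB_diff h.cone h.smz hx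
  have dn := TB_diff h.cone h.smn hx
  have dlam := S.smlam.differentiableAt hx0
  have F := TB_fr S hx0 (h.frame x hx)
  have sy := TB_sym S hx0
  have ht := TB_trace S hx0 (h.frame x hx) (S.Lam x)
  have hs : S.g x (S.Lam x *ᵥ n x) (z x) = S.g x (S.Lam x *ᵥ z x) (n x) := by
    rw [S.g_Lam hx0, sy]
  have P := (h.P x hx).ne'
  constructor
  · obtain ⟨ηp, ηm, -, h2, -, h4, -⟩ := T6_conn S h hx (z x)
    rw [S.nab_g hx0 dlam dn (z x), ← S.Lam_mulVec, h4, TB_add_r, TB_smul_r, TB_smul_r]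
    rw [F.zz, F.nz, F.ez] at h2
    have h2' : ηm = -((l x - s x) * S.g x (S.lam x) (e x) / ((l x - s x) ^ 2 - a x * b x)) := by
      rw [h2]; ring
    rw [h2', ht, hs]
    ring
  · obtain ⟨ηp, ηm, h1, -, h3, -⟩ := T6_conn S h hx (n x)
    have h3' : S.g x (S.lam x) (S.nab z (n x) x) = S.g x (S.nab z (n x) x) (n x)
        * S.g x (S.lam x) (z x) + ηp * S.g x (S.lam x) (e x) := by
      conv_lhs => rw [h3]
      rw [TB_add_r, TB_smul_r, TB_smul_r]
    rw [S.nab_g hx0 dlam dz (n x), ← S.Lam_mulVec, h3']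
    rw [F.zn, F.nn, F.en] at h1
    have h1' : ηp = -((l x - s x) * S.g x (S.lam x) (e x) / ((l x - s x) ^ 2 - a x * b x)) := by
      rw [h1]; ring
    rw [h1', ht, hs]
    ring

end Pool.Agent.helper68.B2
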