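import Pool.Agent.helper68.B2.Defs
import Pool.Agent.helper25.B2.TDefs
import Pool.Agent.helper93.B2.FD
import Pool.Agent.helper31.B2.B0a
import Pool.Agent.helper98.B2.B0b
import Pool.Agent.helper98.B2.GA

/-! # MP_b2b189_gt: auxiliary lemmas for the modules T6b T6c T3d -/

set_option autoImplicit false

namespace Pool.Agent.helper68.B2

open scoped ContDiff Topology Matrix
open Matrix Set Filter

theorem TB_g_def (S : Geo) (x : E4) (u v : V3) : S.g x u v = u ⬝ᵥ (S.G x *ᵥ v) := rfl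

theorem TB_add_l (S : Geo) (x : E4) (u u' v : V3) : S.g x (u + u') v = S.g x u v + S.g x u' v := by
  rw [TB_g_def, TB_g_def, TB_g_def, add_dotProduct]

theorem TB_add_r (S : Geo) (x : E4) (u v v' : V3) : S.g x u (v + v') = S.g x u v + S.g x u v' := by
  rw [TB_g_def, TB_g_def, TB_g_def, mulVec_add, dotProduct_add]

theorem TB_smul_l (S : Geo) (x : E4) (c : ℝ) (u v : V3) : S.g x (c • u) v = c * S.g x u v := by
  rw [TB_g_def, TB_g_def, smul_dotProduct, smul_eq_mul]

theorem TB_smul_r (S : Geo) (x : E4) (c : ℝ) (u v : V3) : S.g x u (c • v) = c * S.g x u v := by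
  rw [TB_g_def, TB_g_def, mulVec_smul, dotProduct_smul, smul_eq_mul]

theorem TB_neg_l (S : Geo) (x : E4) (u v : V3) : S.g x (-u) v = -S.g x u v := by
  rw [TB_g_def, TB_g_def, neg_dotProduct]

theorem TB_neg_r (S : Geo) (x : E4) (u v : V3) : S.g x u (-v) = -S.g x u v := by
  rw [TB_g_def, TB_g_def, mulVec_neg, dotProduct_neg]

theorem TB_sub_l (S : Geo) (x : E4) (u u' v : V3) : S.g x (u - u') v = S.g x u v - S.g x u' v := by
  rw [TB_g_def, TB_g_def, TB_g_def, sub_dotProduct]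

theorem TB_sub_r (S : Geo) (x : E4) (u v v' : V3) : S.g x u (v - v') = S.g x u v - S.g x u v' := by
  rw [TB_g_def, TB_g_def, TB_g_def, mulVec_sub, dotProduct_sub]

theorem TB_zero_l (S : Geo) (x : E4) (v : V3) : S.g x 0 v = 0 := by
  rw [TB_g_def, zero_dotProduct]

theorem TB_zero_r (S : Geo) (x : E4) (v : V3) : S.g x v 0 = 0 := by
  rw [TB_g_def, mulVec_zero, dotProduct_zero]

/-- a vector orthogonal to a null frame vanishes -/
theorem TB_frame_zero {G : M3} (hG : Gᵀ = G) {z n e w : V3} (h : NFrame G z n e)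
    (h1 : bil G z w = 0) (h2 : bil G n w = 0) (h3 : bil G e w = 0) : w = 0 := by
  have hsymm : ∀ u v : V3, bil G u v = bil G v u := by
    intro u v
    unfold bil
    rw [dotProduct_mulVec, ← mulVec_transpose, hG, dotProduct_comm]
  set Q : M3 := Matrix.of ![z, n, e] with hQ
  have hprod : Q * G * Qᵀ = !![0, 1, 0; 1, 0, 0; 0, 0, 1] := by
    have key : ∀ i j, (Q * G * Qᵀ) i j = bil G (![z, n, e] i) (![z, n, e] j) := by
      intro i j
      unfold bil
      rw [dotProduct_mulVec, Matrix.mul_apply, dotProduct]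
      rfl
    ext i j
    rw [key]
    fin_cases i <;> fin_cases j <;>
      simp [h.zz, h.nn, h.zn, h.ee, h.ze, h.ne, hsymm n z, hsymm e z, hsymm e n]
  have hdet : (Q * G * Qᵀ).det = -1 := by
    rw [hprod, Matrix.det_fin_three]
    simp
  rw [Matrix.det_mul, Matrix.det_mul] at hdet
  have hQ0 : Q.det ≠ 0 := by
    intro h0
    rw [h0] at hdet
    simp at hdet
  have hG0 : G.det ≠ 0 := by
    intro h0
    rw [h0] at hdet
    simp at hdet
  have h4 : Q *ᵥ (G *ᵥ w) = 0 := by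
    ext i
    fin_cases i
    · exact h1
    · exact h2
    · exact h3
  exact Matrix.eq_zero_of_mulVec_eq_zero hG0 (Matrix.eq_zero_of_mulVec_eq_zero hQ0 h4)

theorem TB_sym (S : Geo) {x : E4} (hx : x ≠ 0) (u v : V3) : S.g x u v = S.g x v u :=
  S.g_symm hx u v

/-- the values of the metric on the frame -/
structure TB_Fr (S : Geo) (x : E4) (z n e : V3) : Prop where
  zz : S.g x z z = 0
  nn : S.g x n n = 0
  zn : S.g x z n = 1
  nz : S.g x n z = 1
  ee : S.g x e e = 1
  ze : S.g x z e = 0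
  ez : S.g x e z = 0
  ne : S.g x n e = 0
  en : S.g x e n = 0

theorem TB_fr (S : Geo) {x : E4} (hx : x ≠ 0) {z n e : V3} (h : NFrame (S.G x) z n e) :
    TB_Fr S x z n e where
  zz := h.zz
  nn := h.nn
  zn := h.zn
  nz := by rw [TB_sym S hx]; exact h.zn
  ee := h.ee
  ze := h.ze
  ez := by rw [TB_sym S hx]; exact h.ze
  ne := h.ne
  en := by rw [TB_sym S hx]; exact h.ne

theorem TB_expand (S : Geo) {x : E4} (hx : x ≠ 0) {z n e : V3} (h : NFrame (S.G x) z n e) (w : V3) :
    w = S.g x w n • z + S.g x w z • n + S.g x w e • e := by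
  have f := TB_fr S hx h
  rw [← sub_eq_zero]
  apply TB_frame_zero (S.symm x hx) h
  · change S.g x z _ = 0
    rw [TB_sub_r, TB_add_r, TB_add_r, TB_smul_r, TB_smul_r, TB_smul_r, f.zz, f.zn, f.ze,
      TB_sym S hx w z]
    ring
  · change S.g x n _ = 0
    rw [TB_sub_r, TB_add_r, TB_add_r, TB_smul_r, TB_smul_r, TB_smul_r, f.nz, f.nn, f.ne,
      TB_sym S hx w n]
    ring
  · change S.g x e _ = 0
    rw [TB_sub_r, TB_add_r, TB_add_r, TB_smul_r, TB_smul_r, TB_smul_r, f.ez, f.en, f.ee,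
      TB_sym S hx w e]
    ring

/-- the trace in a null frame -/
theorem TB_trace (S : Geo) {x : E4} (hx : x ≠ 0) {z n e : V3} (h : NFrame (S.G x) z n e) (A : M3) :
    A.trace = S.g x (A *ᵥ z) n + S.g x (A *ᵥ n) z + S.g x (A *ᵥ e) e := by
  have h1 : (1 : M3) = vecMulVec z (S.G x *ᵥ n) + vecMulVec n (S.G x *ᵥ z)
      + vecMulVec e (S.G x *ᵥ e) := by
    apply Matrix.ext_of_mulVec_single
    intro i
    rw [one_mulVec, add_mulVec, add_mulVec, vecMulVec_mulVec, vecMulVec_mulVec, vecMulVec_mulVec]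
    set w : V3 := Pi.single i 1 with hw
    have h2 := TB_expand S hx h w
    have hd : ∀ u : V3, (S.G x *ᵥ u) ⬝ᵥ w = S.g x w u := by
      intro u
      rw [dotProduct_comm]
      rfl
    rw [hd, hd, hd, op_smul_eq_smul, op_smul_eq_smul, op_smul_eq_smul]
    exact h2
  have h2 : A = vecMulVec (A *ᵥ z) (S.G x *ᵥ n) + vecMulVec (A *ᵥ n) (S.G x *ᵥ z)
      + vecMulVec (A *ᵥ e) (S.G x *ᵥ e) := by
    conv_lhs => rw [← mul_one A, h1]
    rw [mul_add, mul_add, mul_vecMulVec, mul_vecMulVec, mul_vecMulVec]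
  conv_lhs => rw [h2]
  rw [trace_add, trace_add, trace_vecMulVec, trace_vecMulVec, trace_vecMulVec]
  rfl

/-! ### covariant derivatives -/

theorem TB_diff {F : Type*} [NormedAddCommGroup F] [NormedSpace ℝ F] {W : Set E4} (hW : OCone W)
    {f : E4 → F} (hf : ContDiffOn ℝ ∞ f W) {x : E4} (hx : x ∈ W) : DifferentiableAt ℝ f x :=
  (hf.contDiffAt (hW.isOpen.mem_nhds hx)).differentiableAt (by simp)

theorem TB_ne {W : Set E4} (hW : OCone W) {x : E4} (hx : x ∈ W) : x ≠ 0 := fun h =>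
  hW.zero (h ▸ hx)

theorem TB_nab_add (S : Geo) {V W : E4 → V3} {x : E4} (hV : DifferentiableAt ℝ V x)
    (hW : DifferentiableAt ℝ W x) (v : V3) :
    S.nab (fun y => V y + W y) v x = S.nab V v x + S.nab W v x := by
  unfold Geo.nab
  rw [Dv_add hV hW, mulVec_add]
  abel

theorem TB_nab_smul (S : Geo) {f : E4 → ℝ} {V : E4 → V3} {x : E4} (hf : DifferentiableAt ℝ f x)
    (hV : DifferentiableAt ℝ V x) (v : V3) :
    S.nab (fun y => f y • V y) v x = Dv f v x • V x + f x • S.nab V v x := by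
  unfold Geo.nab
  rw [Dv_smul hf hV, mulVec_smul, smul_add]
  abel

theorem TB_nab_congr (S : Geo) {V W : E4 → V3} {x : E4} {U : Set E4} (hU : IsOpen U) (hx : x ∈ U)
    (h : ∀ y ∈ U, V y = W y) (v : V3) : S.nab V v x = S.nab W v x := by
  unfold Geo.nab
  have h1 : V =ᶠ[𝓝 x] W := by
    filter_upwards [hU.mem_nhds hx] with y hy using h y hy
  rw [show Dv V v x = Dv W v x from by unfold Dv; rw [h1.fderiv_eq], h x hx]

theorem TB_nab_L (S : Geo) {V : E4 → V3} {x : E4} (hx : x ≠ 0) (hV : DifferentiableAt ℝ V x)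
    (v : V3) : S.nab (fun y => S.L y *ᵥ V y) v x =
      S.L x *ᵥ S.nab V v x + (S.g x (S.lam x) (V x) • v + S.g x v (V x) • S.lam x) := by
  rw [S.nab_mulVec (S.smL.differentiableAt hx) hV, S.main_v hx, S.od_apply hx]
  abel

/-- product rule for a metric product which is locally constant -/
theorem TB_g_const (S : Geo) {V W : E4 → V3} {x : E4} {U : Set E4} (hU : IsOpen U) (hx : x ∈ U)
    (hx0 : x ≠ 0) (hV : DifferentiableAt ℝ V x) (hW : DifferentiableAt ℝ W x) {c : ℝ}
    (h : ∀ y ∈ U, S.g y (V y) (W y) = c) (v : V3) :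
    S.g x (S.nab V v x) (W x) + S.g x (V x) (S.nab W v x) = 0 := by
  rw [← S.nab_g hx0 hV hW v]
  have h1 : (fun y => S.g y (V y) (W y)) =ᶠ[𝓝 x] fun _ => c := by
    filter_upwards [hU.mem_nhds hx] with y hy using h y hy
  unfold Dv
  rw [h1.fderiv_eq, fderiv_fun_const]
  rfl

end Pool.Agent.helper68.B2
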