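import Pool.Agent.helper93.B2.TB
import Pool.Agent.helper97.B2.T3b
import Pool.Agent.helper9.B2.T1b
import Pool.Agent.helper15.B2.T3c

/-! # MP_b2b189_gt, module T3d: commuting root fields, Killing root fields -/

set_option autoImplicit false

namespace Pool.Agent.helper68.B2

open scoped ContDiff Topology Matrix
open Matrix Set Filter

/-- on the kernel of `A` the adjugate acts as its trace -/
theorem T3d_adj_ker (A : M3) {v : V3} (hv : A *ᵥ v = 0) :
    A.adjugate *ᵥ v = A.adjugate.trace • v := by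
  have h1 : A.adjugate = A * A - A.trace • A + ((A.trace ^ 2 - (A * A).trace) / 2) • (1 : M3) := by
    rw [B0b_adjugate]
    unfold crossM
    ext i j
    simp only [Matrix.smul_apply, Matrix.add_apply, Matrix.sub_apply, smul_eq_mul]
    ring
  have h2 : A.adjugate.trace = (A.trace ^ 2 - (A * A).trace) / 2 := by
    conv_lhs => rw [h1]
    rw [trace_add, trace_sub, trace_smul, trace_smul, trace_one]
    simp
    ring
  rw [h2, h1, add_mulVec, sub_mulVec, ← mulVec_mulVec, hv, mulVec_zero, smul_mulVec, hv,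
    smul_mulVec, one_mulVec]
  simp

/-- a vector of the kernel of `L - μ` orthogonal to `T` vanishes -/
theorem T3d_ker (S : Geo) {W : Set E4} {μ : E4 → ℝ} {σ : ℝ} {T : E4 → V3} (h : IsRoot S W μ σ T)
    {x : E4} (hx : x ∈ W) {v : V3} (hv : S.L x *ᵥ v = μ x • v) (ho : S.g x (T x) v = 0) : v = 0 := by
  have hx0 := TB_ne h.cone hx
  have hA : (S.L x - μ x • (1 : M3)) *ᵥ v = 0 := by
    rw [sub_mulVec, hv, smul_mulVec, one_mulVec, sub_self]
  have h1 := T3d_adj_ker _ hA
  rw [h.adj x hx, smul_mulVec, GA_vecMulVec_mulVec, dotProduct_comm] at h1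
  have h2 : v ⬝ᵥ (S.G x *ᵥ T x) = 0 := by
    change S.g x v (T x) = 0
    rw [TB_sym S hx0]; exact ho
  rw [h2, zero_smul, smul_zero, ← h.adj x hx] at h1
  rcases smul_eq_zero.1 h1.symm with h3 | h3
  · exact absurd h3 (h.simple x hx)
  · exact h3

theorem T3d_L (S : Geo) {x : E4} (μ : ℝ) (v : V3) :
    (S.L x - μ • (1 : M3)) *ᵥ v = S.L x *ᵥ v - μ • v := by
  rw [sub_mulVec, smul_mulVec, one_mulVec]

theorem T3d_orth (S : Geo) {x : E4} (hx : x ≠ 0) {μ μ' : ℝ} (hne : μ ≠ μ') {u v : V3}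
    (hu : S.L x *ᵥ u = μ • u) (hv : S.L x *ᵥ v = μ' • v) : S.g x u v = 0 := by
  have h1 := S.g_L hx u v
  rw [hu, hv, TB_smul_l, TB_smul_r] at h1
  have h2 : (μ - μ') * S.g x u v = 0 := by linarith
  rcases mul_eq_zero.1 h2 with h3 | h3
  · exact absurd (sub_eq_zero.1 h3) hne
  · exact h3

/-- the field `T / g(T,T)` -/
noncomputable def T3d_U (S : Geo) (T : E4 → V3) : E4 → V3 :=
  fun y => (S.g y (T y) (T y))⁻¹ • T y

theorem T3d_Uhom (S : Geo) {W : Set E4} {μ : E4 → ℝ} {σ : ℝ} {T : E4 → V3} (h : IsRoot S W μ σ T) :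
    Hom (T3d_U S T) := by
  intro t ht x
  unfold T3d_U Geo.g
  rw [h.homT t ht x, S.homG t ht x]

theorem T3d_gdiff (S : Geo) {V W : E4 → V3} {x : E4} (hx : x ≠ 0) (hV : DifferentiableAt ℝ V x)
    (hW : DifferentiableAt ℝ W x) : DifferentiableAt ℝ (fun y => S.g y (V y) (W y)) x := by
  have h1 : DifferentiableAt ℝ (fun y => S.G y *ᵥ W y) x :=
    ((B0b_H_of (v := 0) (S.smG.differentiableAt hx)).bilin B0b_bil_mulVec (B0b_H_of hW)).diff
  exact ((B0b_H_of (v := 0) hV).bilin B0b_bil_dotProduct (B0b_H_of h1)).diff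

theorem T3d_Udiff (S : Geo) {W : Set E4} {μ : E4 → ℝ} {σ : ℝ} {T : E4 → V3} (h : IsRoot S W μ σ T)
    {x : E4} (hx : x ∈ W) : DifferentiableAt ℝ (T3d_U S T) x := by
  have hx0 := TB_ne h.cone hx
  have dT := TB_diff h.cone h.smT hx
  have hne : S.g x (T x) (T x) ≠ 0 := (T3_eig S h hx 0).2.2.1
  exact ((T3d_gdiff S hx0 dT dT).inv hne).smul dT

/-- closedness of `T♭ / g(T,T)` in terms of the covariant derivative -/
theorem T3d_closed (S : Geo) {W : Set E4} {μ : E4 → ℝ} {σ : ℝ} {T : E4 → V3} (h : IsRoot S W μ σ T)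
    {x : E4} (hx : x ∈ W) (v v' : V3) :
    S.g x (S.nab (T3d_U S T) v x) v' = S.g x (S.nab (T3d_U S T) v' x) v := by
  have hx0 := TB_ne h.cone hx
  have h1 := Pool.Agent.helper68.B2.T.form_flat_d S (T3d_Uhom S h) hx0 (T3d_Udiff S h hx) (fld v x) (fld v' x)
  have h2 : (form fun y => S.G y *ᵥ T3d_U S T y) = theta S T := by
    unfold theta
    congr 1
    funext y
    unfold T3d_U
    rw [mulVec_smul]
  rw [h2, T3_closed S h hx, sub_self, comps_fld v hx0, comps_fld v' hx0] at h1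
  linarith

/-- derivative of `g(U,T)`, `U = T / g(T,T)` -/
theorem T3d_UT (S : Geo) {W : Set E4} {μ : E4 → ℝ} {σ : ℝ} {T : E4 → V3} (h : IsRoot S W μ σ T)
    {x : E4} (hx : x ∈ W) (v : V3) :
    S.g x (S.nab (T3d_U S T) v x) (T x) + S.g x (T3d_U S T x) (S.nab T v x) = 0 := by
  have hx0 := TB_ne h.cone hx
  refine TB_g_const S h.cone.isOpen hx hx0 (T3d_Udiff S h hx) (TB_diff h.cone h.smT hx) (c := 1)
    (fun y hy => ?_) v
  unfold T3d_U
  rw [TB_smul_l, inv_mul_cancel₀ (T3_eig S h hy 0).2.2.1]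

/-- fields of two different simple eigenvalues commute -/
theorem T3_commute (S : Geo) {W : Set E4} {μ μ' : E4 → ℝ} {σ σ' : ℝ} {T T' : E4 → V3}
    (h : IsRoot S W μ σ T) (h' : IsRoot S W μ' σ' T') (hne : ∀ x ∈ W, μ x ≠ μ' x) {x : E4} (hx : x ∈ W) :
    S.nab T' (T x) x = S.nab T (T' x) x ∧ Dv μ' (T x) x = 0 := by
  have hx0 := TB_ne h.cone hx
  have orth : ∀ y ∈ W, S.g y (T y) (T' y) = 0 := fun y hy =>
    T3d_orth S (TB_ne h.cone hy) (hne y hy) (T3_eig S h hy 0).1 (T3_eig S h' hy 0).1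
  have o1 := orth x hx
  have o2 : S.g x (T' x) (T x) = 0 := by rw [TB_sym S hx0]; exact o1
  have d1 : Dv μ' (T x) x = 0 := by
    rw [(T3_eig S h' hx (T x)).2.2.2, o2]
    ring
  have d2 : Dv μ (T' x) x = 0 := by
    rw [(T3_eig S h hx (T' x)).2.2.2, o1]
    ring
  refine ⟨?_, d1⟩
  have n1 := (T3_eig S h hx 0).2.2.1
  have n2 := (T3_eig S h' hx 0).2.2.1
  have dT := TB_diff h.cone h.smT hx
  have dT' := TB_diff h'.cone h'.smT hx
  -- `g(T, nab T' T - nab T T') = 0`
  have q1 : S.g x (S.nab (T3d_U S T) (T x) x) (T' x)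
      + S.g x (T3d_U S T x) (S.nab T' (T x) x) = 0 := by
    refine TB_g_const S h.cone.isOpen hx hx0 (T3d_Udiff S h hx) dT' (c := 0) (fun y hy => ?_) _
    unfold T3d_U
    rw [TB_smul_l, orth y hy, mul_zero]
  have q2 := T3d_UT S h hx (T' x)
  have q3 := T3d_closed S h hx (T x) (T' x)
  have e1 : S.g x (T x) (S.nab T' (T x) x) = S.g x (T x) (S.nab T (T' x) x) := by
    have e0 : S.g x (T3d_U S T x) (S.nab T' (T x) x) = S.g x (T3d_U S T x) (S.nab T (T' x) x) := by
      linarith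
    unfold T3d_U at e0
    rw [TB_smul_l, TB_smul_l] at e0
    exact mul_left_cancel₀ (inv_ne_zero n1) e0
  -- the same for `T'`
  have r1 : S.g x (S.nab (T3d_U S T') (T' x) x) (T x)
      + S.g x (T3d_U S T' x) (S.nab T (T' x) x) = 0 := by
    refine TB_g_const S h.cone.isOpen hx hx0 (T3d_Udiff S h' hx) dT (c := 0) (fun y hy => ?_) _
    unfold T3d_U
    rw [TB_smul_l, TB_sym S (TB_ne h.cone hy) (T' y) (T y), orth y hy, mul_zero]
  have r2 := T3d_UT S h' hx (T x)
  have r3 := T3d_closed S h' hx (T' x) (T x)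
  have e2 : S.g x (T' x) (S.nab T' (T x) x) = S.g x (T' x) (S.nab T (T' x) x) := by
    have e0 : S.g x (T3d_U S T' x) (S.nab T' (T x) x)
        = S.g x (T3d_U S T' x) (S.nab T (T' x) x) := by
      linarith
    unfold T3d_U at e0
    rw [TB_smul_l, TB_smul_l] at e0
    exact mul_left_cancel₀ (inv_ne_zero n2) e0
  -- the equations of the root fields
  have s1 := T3_nab S h hx (T' x)
  have s2 := T3_nab S h' hx (T x)
  rw [d2, zero_smul, o2, zero_smul, add_zero, zero_sub] at s1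
  rw [d1, zero_smul, o1, zero_smul, add_zero, zero_sub] at s2
  have LT := (T3_eig S h hx 0).1
  have LT' := (T3_eig S h' hx 0).1
  set X := S.nab T (T' x) x
  set Y := S.nab T' (T x) x
  set D := Y - X with hD
  have gTD : S.g x (T x) D = 0 := by rw [hD, TB_sub_r, e1, sub_self]
  have gT'D : S.g x (T' x) D = 0 := by rw [hD, TB_sub_r, e2, sub_self]
  -- `(L - μ)(L - μ') D = 0`
  have hLX : S.L x *ᵥ X = μ x • X - S.g x (S.lam x) (T x) • T' x := by
    rw [sub_eq_iff_eq_add] at s1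
    rw [s1]
    abel
  have hLY : S.L x *ᵥ Y = μ' x • Y - S.g x (S.lam x) (T' x) • T x := by
    rw [sub_eq_iff_eq_add] at s2
    rw [s2]
    abel
  have hLD : S.L x *ᵥ (S.L x *ᵥ D - μ' x • D) = μ x • (S.L x *ᵥ D - μ' x • D) := by
    rw [hD]
    simp only [mulVec_sub, mulVec_smul, hLX, hLY, LT, LT', smul_sub, smul_smul]
    rw [mul_comm (μ' x) (μ x), mul_comm (S.g x (S.lam x) (T' x)) (μ x),
      mul_comm (S.g x (S.lam x) (T x)) (μ' x)]
    abel
  have hz : S.L x *ᵥ D - μ' x • D = 0 := by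
    apply T3d_ker S h hx hLD
    rw [TB_sub_r, TB_smul_r, gTD, ← S.g_L hx0, LT, TB_smul_l, gTD]
    ring
  have hD0 : D = 0 := T3d_ker S h' hx (sub_eq_zero.1 hz) gT'D
  exact sub_eq_zero.1 hD0

/-- where `μ` is constant, `T` is a Killing field -/
theorem T3_killing (S : Geo) {W : Set E4} {μ : E4 → ℝ} {σ : ℝ} {T : E4 → V3} (h : IsRoot S W μ σ T)
    (hμ : ∀ x ∈ W, ∀ v, Dv μ v x = 0) {x : E4} (hx : x ∈ W) (v : V3) :
    S.g x (S.nab T v x) v = 0 := by
  have hx0 := TB_ne h.cone hx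
  have dT := TB_diff h.cone h.smT hx
  have dμ := TB_diff h.cone h.smμ hx
  have dL := S.smL.differentiableAt hx0
  have n1 := (T3_eig S h hx 0).2.2.1
  have hσ : σ ≠ 0 := by rcases h.sign with h1 | h1 <;> rw [h1] <;> norm_num
  -- `g(nab_u T, u) g(T, u) = 0`
  have key : ∀ u : V3, S.g x (S.nab T u x) u * S.g x (T x) u = 0 := by
    intro u
    have dA : DifferentiableAt ℝ (fun y => S.L y - μ y • (1 : M3)) x :=
      dL.sub (dμ.smul_const _)
    have k1 : S.nabE (fun y => S.L y - μ y • (1 : M3)) u x = S.od x u (S.lam x) := by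
      rw [← S.main_v hx0 u]
      unfold Geo.nabE
      have k2 : Dv (fun y => S.L y - μ y • (1 : M3)) u x = Dv S.L u x := by
        rw [Dv_sub dL (dμ.smul_const _)]
        have k3 : Dv (fun y => μ y • (1 : M3)) u x = 0 := by
          rw [Dv_smul (g := fun _ => (1 : M3)) dμ (differentiableAt_const _), hμ x hx u, zero_smul,
            Dv_const, smul_zero, add_zero]
        rw [k3, sub_zero]
      rw [k2]
      congr 1
      rw [mul_sub, sub_mul, mul_smul_comm, smul_mul_assoc, mul_one, one_mul]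
      abel
    have k4 := S.nabE_adjugate dA u
    rw [k1, ← S.nabE_K (μ x) hx0 u] at k4
    have k5 : S.nabE (fun y => (S.L y - μ y • (1 : M3)).adjugate) u x
        = σ • (vecMulVec (S.nab T u x) (S.G x *ᵥ T x) + vecMulVec (T x) (S.G x *ᵥ S.nab T u x)) := by
      rw [← S.nabE_dyad hx0 dT dT u]
      have k6 : (fun y => (S.L y - μ y • (1 : M3)).adjugate)
          =ᶠ[𝓝 x] fun y => σ • vecMulVec (T y) (S.G y *ᵥ T y) := by
        filter_upwards [h.cone.isOpen.mem_nhds hx] with y hy using h.adj y hy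
      have dG : DifferentiableAt ℝ (fun y => S.G y *ᵥ T y) x :=
        ((B0b_H_of (v := 0) (S.smG.differentiableAt hx0)).bilin B0b_bil_mulVec (B0b_H_of dT)).diff
      have dV : DifferentiableAt ℝ (fun y => vecMulVec (T y) (S.G y *ᵥ T y)) x :=
        ((B0b_H_of (v := 0) dT).bilin B0b_bil_vecMulVec (B0b_H_of dG)).diff
      unfold Geo.nabE
      rw [B0b_Dv_congr k6]
      beta_reduce
      rw [h.adj x hx]
      have k7 : Dv (fun y => σ • vecMulVec (T y) (S.G y *ᵥ T y)) u x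
          = σ • Dv (fun y => vecMulVec (T y) (S.G y *ᵥ T y)) u x := by
        unfold Dv
        rw [fderiv_fun_const_smul dV]
        rfl
      rw [k7, mul_smul_comm, smul_mul_assoc, smul_add, smul_sub]
    rw [k5] at k4
    have k8 := S.K_killing (μ x) hx0 u
    rw [← k4, smul_mulVec, add_mulVec, GA_vecMulVec_mulVec, GA_vecMulVec_mulVec, TB_smul_r,
      TB_add_r, TB_smul_r, TB_smul_r] at k8
    have k9 : (S.G x *ᵥ T x) ⬝ᵥ u = S.g x (T x) u := by
      rw [dotProduct_comm, TB_sym S hx0]; rfl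
    have k10 : (S.G x *ᵥ S.nab T u x) ⬝ᵥ u = S.g x (S.nab T u x) u := by
      rw [dotProduct_comm, TB_sym S hx0]; rfl
    rw [k9, k10, TB_sym S hx0 u (S.nab T u x), TB_sym S hx0 u (T x)] at k8
    rcases mul_eq_zero.1 k8 with k11 | k11
    · exact absurd k11 hσ
    · linarith
  -- linearity of `u ↦ nab T u`
  have ladd : ∀ u w : V3, S.nab T (u + w) x = S.nab T u x + S.nab T w x := by
    intro u w
    unfold Geo.nab
    rw [Dv_add_arg, S.Gam_add, add_mulVec]
    abel
  have lneg : ∀ u : V3, S.nab T (-u) x = - S.nab T u x := by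
    intro u
    have h1 := ladd u (-u)
    have h2 : S.nab T 0 x = 0 := by
      have h3 := ladd 0 0
      rw [add_zero] at h3
      simpa using h3
    rw [add_neg_cancel, h2] at h1
    exact (neg_eq_of_add_eq_zero_right h1.symm).symm
  -- `q u = g(nab_u T, u)` vanishes where `g(T,u) ≠ 0`
  have hq : ∀ u : V3, S.g x (T x) u ≠ 0 → S.g x (S.nab T u x) u = 0 := fun u hu =>
    (mul_eq_zero.1 (key u)).resolve_right hu
  by_cases hv : S.g x (T x) v = 0
  · have t0 := hq (T x) n1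
    have t1 := hq (v + T x) (by rw [TB_add_r, hv, zero_add]; exact n1)
    have t2 := hq (v + -T x) (by rw [TB_add_r, TB_neg_r, hv, zero_add]; exact neg_ne_zero.2 n1)
    rw [ladd, TB_add_l, TB_add_r, TB_add_r] at t1 t2
    rw [lneg] at t2
    simp only [TB_neg_l, TB_neg_r] at t2
    linarith
  · exact hq v hv

theorem T3d_lin_ext (φ ψ : V3 →ₗ[ℝ] ℝ) (h : ∀ i, φ (ee i) = ψ (ee i)) (v : V3) : φ v = ψ v := by
  have : φ = ψ := by
    apply (Pi.basisFun ℝ (Fin 3)).ext
    intro i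
    rw [Pi.basisFun_apply]
    exact h i
  rw [this]

/-- the covariant derivative as a linear map in the direction -/
noncomputable def T3d_nabL (S : Geo) (V : E4 → V3) (x : E4) : V3 →ₗ[ℝ] V3 where
  toFun v := S.nab V v x
  map_add' v w := by
    unfold Geo.nab
    rw [Dv_add_arg, S.Gam_add, add_mulVec]
    abel
  map_smul' c v := by
    unfold Geo.nab
    rw [Dv_smul_arg, S.Gam_smul, smul_mulVec, smul_add]
    rfl

/-- the metric as a linear map in each argument -/
noncomputable def T3d_gL (S : Geo) (x : E4) (w : V3) : V3 →ₗ[ℝ] ℝ where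
  toFun v := S.g x w v
  map_add' v v' := TB_add_r S x w v v'
  map_smul' c v := by rw [TB_smul_r]; rfl

noncomputable def T3d_gR (S : Geo) (x : E4) (w : V3) : V3 →ₗ[ℝ] ℝ where
  toFun v := S.g x v w
  map_add' v v' := TB_add_l S x v v' w
  map_smul' c v := by rw [TB_smul_l]; rfl

/-- the Hessian of a function is symmetric -/
theorem T3d_hess (S : Geo) {W : Set E4} (hW : OCone W) {X : E4 → V3} {f : E4 → ℝ}
    (hf : ContDiffOn ℝ ∞ f W) (hX : ContDiffOn ℝ ∞ X W)
    (hXf : ∀ x ∈ W, ∀ v, Dv f v x = S.g x (X x) v) {x : E4} (hx : x ∈ W) (v w : V3) :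
    S.g x (S.nab X v x) w = S.g x (S.nab X w x) v := by
  have hx0 := TB_ne hW hx
  have dX := TB_diff hW hX hx
  have hfx : ContDiffAt ℝ 2 f x :=
    (hf.contDiffAt (hW.isOpen.mem_nhds hx)).of_le
      (show ((2 : ℕ∞) : WithTop ℕ∞) ≤ ((⊤ : ℕ∞) : WithTop ℕ∞) from WithTop.coe_le_coe.2 le_top)
  have hbasis : ∀ i j : Fin 3, S.g x (S.nab X (ee i) x) (ee j) = S.g x (S.nab X (ee j) x) (ee i) := by
    intro i j
    have e1 : ∀ i j : Fin 3, Dv (fun y => Dv f (ee j) y) (ee i) x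
        = S.g x (S.nab X (ee i) x) (ee j) + S.g x (X x) (S.Gam (ee i) x *ᵥ ee j) := by
      intro i j
      have h1 : (fun y => Dv f (ee j) y) =ᶠ[𝓝 x] fun y => S.g y (X y) (ee j) := by
        filter_upwards [hW.isOpen.mem_nhds hx] with y hy using hXf y hy (ee j)
      rw [B0b_Dv_congr h1, S.nab_g hx0 dX (differentiableAt_const (ee j))]
      congr 2
      unfold Geo.nab
      rw [Dv_const, zero_add]
    have h2 := commutator hfx i j
    rw [e1, e1] at h2
    have h3 := S.torsion_v hx0 (ee i) (ee j)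
    have h4 : (fun k => 2 * ∑ i', ∑ j', eps i' j' k * ee i i' * ee j j')
        = ∑ k, (2 * eps i j k) • ee k := by
      funext k
      rw [Finset.sum_apply]
      simp [ee, Pi.single_apply]
    rw [h4] at h3
    have h5 : S.g x (X x) (S.Gam (ee i) x *ᵥ ee j) - S.g x (X x) (S.Gam (ee j) x *ᵥ ee i)
        = ∑ k, (2 * eps i j k) • Dv f (ee k) x := by
      rw [← TB_sub_r, h3]
      change T3d_gL S x (X x) _ = _
      rw [map_sum]
      refine Finset.sum_congr rfl fun k _ => ?_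
      rw [map_smul, hXf x hx]
      rfl
    linarith
  refine T3d_lin_ext ((T3d_gR S x w).comp (T3d_nabL S X x)) (T3d_gL S x (S.nab X w x))
    (fun i => ?_) v
  change S.g x (S.nab X (ee i) x) w = S.g x (S.nab X w x) (ee i)
  exact T3d_lin_ext (T3d_gL S x (S.nab X (ee i) x)) ((T3d_gR S x (ee i)).comp (T3d_nabL S X x))
    (fun j => hbasis i j) w

/-- a Killing root field commutes with the gradient of an invariant function -/
theorem T3_killing_grad (S : Geo) {W : Set E4} {μ : E4 → ℝ} {σ : ℝ} {T X : E4 → V3} {f : E4 → ℝ}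
    (h : IsRoot S W μ σ T) (hμ : ∀ x ∈ W, ∀ v, Dv μ v x = 0) (hf : ContDiffOn ℝ ∞ f W) (hfh : Hom f)
    (hX : ContDiffOn ℝ ∞ X W) (hXf : ∀ x ∈ W, ∀ v, Dv f v x = S.g x (X x) v)
    (hT : ∀ x ∈ W, Dv f (T x) x = 0) {x : E4} (hx : x ∈ W) :
    S.nab X (T x) x = S.nab T (X x) x := by
  have hx0 := TB_ne h.cone hx
  rw [← sub_eq_zero]
  apply S.g_nondeg hx0
  intro v
  rw [TB_sub_l, T3d_hess S h.cone hf hX hXf hx (T x) v]
  have h1 := TB_g_const S h.cone.isOpen hx hx0 (TB_diff h.cone hX hx) (TB_diff h.cone h.smT hx)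
    (c := 0) (fun y hy => by rw [← hXf y hy, hT y hy]) v
  have h2 := T3_killing S h hμ hx (v + X x)
  have h3 := T3_killing S h hμ hx v
  have h4 := T3_killing S h hμ hx (X x)
  have h5 : S.nab T (v + X x) x = S.nab T v x + S.nab T (X x) x := (T3d_nabL S T x).map_add v (X x)
  rw [h5, TB_add_l, TB_add_r, TB_add_r, h3, h4] at h2
  rw [TB_sym S hx0 (X x) (S.nab T v x)] at h1
  linarith

end Pool.Agent.helper68.B2
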